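import Pool.Agent.T9h21.BC.Main

set_option autoImplicit false

/-!
# Branch-and-cut for the Euclidean travelling salesman problem

The definitions used in the statement are in `Pool/Agent/T9h21/BC/Def.lean` and
`Pool/Agent/W888/UG/Model.lean`:

* `len P s`: the exact Euclidean length of a permutation `s` of the set `P` of integer points (the
  sum of the distances from the points to their successors); `IsTour P s`: `s` is a cyclic ordering
  of all points; `IsTwoFactor P s`: all cycles of `s` have at least three points;
  `LongCycles P K s`: all cycles of `s` have at least `K` points;
* `inc P s`: the incidence vector of `s`, with the entry `1` for `(u, s u)` and `0` otherwise (with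
  symmetric coefficients one obtains all linear forms in the variables of the undirected edges);
* `Valid P B K N c d`: the inequality `c x ≥ d` holds for all 2-factors of length at most `B` whose
  cycles all have at least `K` points and that satisfy the subtour constraints of some `N` sets of
  points (the sets are chosen for the inequality);
* `Relax P B K N t`: the points `x` that are the mean of a probability distribution on the
  2-factors of length at most `B` with cycles of at least `K` points, with
  `E [f ^ 2 * (c x - d)] ≥ 0` for all polynomials `f` of degree at most `t` and all inequalities
  `c x ≥ d` with `Valid P B K N c d`.  For `K = 0`, `N = 1`, `t = 0` this is contained in the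
  subtour relaxation (Held-Karp relaxation), intersected with the 2-matching polytope and with the
  bound `B` for the length; for larger `N` all comb, clique tree, path inequalities and so on with
  at most `N` constituting sets hold as well, and also all cutting planes with a proof, of any
  kind, from at most `N` subtour constraints; by part (2) below, all inequalities on at most
  `log₂ N` contracted nodes hold, and all those which treat all but less than `K` points as one
  contracted node; for larger `t` the points satisfy the conditions of the level `t` of the
  Lasserre hierarchy;
* `splitClosure P R`: the points of `R` that satisfy all cuts which hold on both sides of a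
  split `a x ≤ b` or `a x ≥ b + 1` of `R`, with `a`, `b` integral; this includes all Gomory,
  Chvátal, mixed integer rounding and lift-and-project cuts; `(splitClosure P)^[r]`: `r` rounds;
* `Tree`: branch-and-cut trees, which branch on integer disjunctions `c ≤ b` or `c ≥ b + 1` or on
  real disjunctions `c < b` or `c ≥ b`; `Tree.leaves`: the number of leaves; `Tree.Proves`: at every
  leaf no point of the relaxation satisfies all the branches above it;
* `SplitProof`: cutting-plane proofs with split cuts (which include the Chvátal-Gomory cuts), as
  lists of cuts.

The theorem contains (with other points and constants) an earlier theorem of helper88 for the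
subtour relaxation with all inequalities on `k` contracted nodes and `r` rounds of split cuts, from
which the split closure and the contracted nodes are taken.

Idea of the proof. The instance consists of `m + 1` thin rectangles, one above the other, and `D`
points between any two consecutive rectangles.  Each of these points can be inserted into the
rectangle below or into the rectangle above at the same cost; this gives `2 ^ (m D)` 2-factors of
the same length, none of which is a tour.  A subtour constraint is violated by a 2-factor only if
the choices of all `D` points between some two rectangles are prescribed.  If few convex sets cover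
these 2-factors, then by superadditivity of entropy one of them contains the mean of a product
distribution in which almost all choices are balanced.  An inequality that holds except on few
subcubes of codimension `D` has a total weight much larger than its deficit, and the square of a
polynomial of low degree cannot concentrate at many coordinates since its influences are small; so
the product distribution satisfies the conditions of the relaxation.  A split costs at most four
coordinates: either the split form depends on at least four balanced choices, and moving them a
little changes its value by one, or fixing at most three choices (and those already spent) makes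
its value integral.
-/

namespace Pool.Agent.Results.MP_e361f4_lc.BranchAndCut

open Pool.Agent.T9h21.BC
open Pool.Agent.W888.UG (Tree SplitProof)

/-- (1) The relaxation contains all tours of length at most `B`.

(2) Every inequality that is valid for all tours belongs to the inequalities of the relaxation with
the parameters `K` and `2 ^ k` if its coefficients depend only on a partition of the points into at
most `k` classes, or into classes one of which contains all but less than `K` points.

(3) For all `D, m ≥ 1` there are a set `P` of at most `(m + 1) (6 D + 4) + m D` integer points with
coordinates at most `18 D` and `20 m + 12` and a number `B ≤ 126 m D` such that every tour has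
length at least `B + 2 m / 3` (which is at least `(1 + 1 / (189 D)) B`), but for all `N`, `t` and
`r` the following holds for the relaxation with the parameters `K = 6 D + 4`, `N`, `t`, after `r`
rounds of split closure: every list of convex sets that covers all 2-factors of length at most `B`
with cycles of at least `K` points and contains no point of the relaxation has at least
`exp ((D - 4 r - 16 t - 16 log₂ N - 16) / 32)` members; every branch-and-cut tree which proves that
there is no tour of length at most `B` has at least that many leaves, and every such proof with
`L` split cuts satisfies `2 L + 1 ≥ exp ((D - 4 r - 16 t - 16 log₂ N - 16) / 32)`.  Some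
branch-and-cut tree is such a proof, already for `K = 0`, `N = 1` and `t = 0`. -/
theorem result :
    (∀ (P : Finset (ℤ × ℤ)) (B : ℝ) (K N t r : ℕ) (s : Equiv.Perm P), K ≤ P.card → IsTour P s →
      IsTwoFactor P s → len P s ≤ B → inc P s ∈ (splitClosure P)^[r] (Relax P B K N t)) ∧
    (∀ (P : Finset (ℤ × ℤ)) (B : ℝ) (K k : ℕ) (c : P → ℕ) (f : ℕ → ℕ → ℝ) (d : ℝ),
      ((Finset.univ.image c).card ≤ k ∨
        ∃ i, P.card < K + (Finset.univ.filter fun v => c v = i).card) →
      (∀ s : Equiv.Perm P, IsTour P s → d ≤ ∑ u, ∑ v, f (c u) (c v) * inc P s u v) →
      Valid P B K (2 ^ k) (fun u v => f (c u) (c v)) d) ∧
    ∀ D m : ℕ, 1 ≤ D → 1 ≤ m →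
    ∃ (P : Finset (ℤ × ℤ)) (B : ℕ), P.card ≤ (m + 1) * (6 * D + 4) + m * D ∧
      (∀ q ∈ P, 0 ≤ q.1 ∧ q.1 ≤ 18 * D ∧ 0 ≤ q.2 ∧ q.2 ≤ 20 * m + 12) ∧
      B ≤ 126 * m * D ∧
      (∀ s : Equiv.Perm P, IsTour P s → (B : ℝ) + 2 / 3 * m ≤ len P s) ∧
      (∀ N t r : ℕ,
        (∀ F : List (Set (P → P → ℝ)), (∀ C ∈ F, Convex ℝ C) →
          (∀ C ∈ F, ∀ x ∈ C, x ∉ (splitClosure P)^[r] (Relax P B (6 * D + 4) N t)) →
          (∀ s : Equiv.Perm P, IsTwoFactor P s → len P s ≤ B → LongCycles P (6 * D + 4) s →
            ∃ C ∈ F, inc P s ∈ C) →
          Real.exp (((D : ℝ) - 4 * r - 16 * t - 16 * Nat.log 2 N - 16) / 32) ≤ F.length) ∧
        (∀ T : Tree P P,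
          T.Proves ((splitClosure P)^[r] (Relax P B (6 * D + 4) N t)) Set.univ →
          Real.exp (((D : ℝ) - 4 * r - 16 * t - 16 * Nat.log 2 N - 16) / 32) ≤ T.leaves) ∧
        (∀ l, SplitProof ((splitClosure P)^[r] (Relax P B (6 * D + 4) N t)) l Set.univ →
          Real.exp (((D : ℝ) - 4 * r - 16 * t - 16 * Nat.log 2 N - 16) / 32) ≤
            2 * l.length + 1)) ∧
      ∃ T : Tree P P, T.Proves (Relax P B 0 1 0) Set.univ :=
  ⟨fun P B K N t r s h0 h1 h2 h3 => split_iter_mem P _ s (tour_mem P B K N t h0 s h1 h2 h3) r,
    fun P B K k c f d h1 h2 => contracted P B K k c f d h1 h2, fun D m hD hm => main D m hD hm⟩

end Pool.Agent.Results.MP_e361f4_lc.BranchAndCut
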